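import Mathlib

set_option autoImplicit false

namespace Pool.Agent.Results.MP_6238b5_al.HeightTwist

open Real

/-- The unit sphere of three-space, as a subspace of `ℝ × ℝ × ℝ` written as `Fin 3 → ℝ`. -/
def S2 : Type := {p : Fin 3 → ℝ // p 0 ^ 2 + p 1 ^ 2 + p 2 ^ 2 = 1}

instance : TopologicalSpace S2 := instTopologicalSpaceSubtype

/-- The vector underlying a point of the sphere. -/
def S2.vec (u : S2) : Fin 3 → ℝ := Subtype.val u

lemma S2.eq {u v : S2} (h : u.vec = v.vec) : u = v := Subtype.ext h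

lemma cont_vec : Continuous S2.vec := continuous_subtype_val

/-- A binary operation on the sphere (`op u v` is `u * v`) is a topological quandle structure:
jointly continuous, idempotent, right translations bijective, right self-distributive. -/
def IsTopQuandle (op : S2 → S2 → S2) : Prop :=
  Continuous (fun p : S2 × S2 => op p.1 p.2) ∧
  (∀ x, op x x = x) ∧
  (∀ y, Function.Bijective (fun x => op x y)) ∧
  (∀ x y z, op (op x y) z = op (op x z) (op y z))

/-- The cross product of two vectors of three-space. -/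
def cross (v u : Fin 3 → ℝ) : Fin 3 → ℝ :=
  ![v 1 * u 2 - v 2 * u 1, v 2 * u 0 - v 0 * u 2, v 0 * u 1 - v 1 * u 0]

/-- The image of `u` under the rotation by the angle `ψ` about the axis through `0` and the unit
vector `v`, in the positive sense (Rodrigues formula). -/
noncomputable def rot (ψ : ℝ) (v u : Fin 3 → ℝ) : Fin 3 → ℝ := fun i =>
  Real.cos ψ * u i + Real.sin ψ * cross v u i
    + (1 - Real.cos ψ) * (v 0 * u 0 + v 1 * u 1 + v 2 * u 2) * v i

/-- Rotation about the third axis. -/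
noncomputable def rz (θ : ℝ) (u : Fin 3 → ℝ) : Fin 3 → ℝ :=
  ![cos θ * u 0 - sin θ * u 1, sin θ * u 0 + cos θ * u 1, u 2]

lemma rz0 (θ : ℝ) (u : Fin 3 → ℝ) : rz θ u 0 = cos θ * u 0 - sin θ * u 1 := by simp [rz]
lemma rz1 (θ : ℝ) (u : Fin 3 → ℝ) : rz θ u 1 = sin θ * u 0 + cos θ * u 1 := by simp [rz]
lemma rz2 (θ : ℝ) (u : Fin 3 → ℝ) : rz θ u 2 = u 2 := by simp [rz]

lemma rz_mem {θ : ℝ} {u : Fin 3 → ℝ} (hu : u 0 ^ 2 + u 1 ^ 2 + u 2 ^ 2 = 1) :
    rz θ u 0 ^ 2 + rz θ u 1 ^ 2 + rz θ u 2 ^ 2 = 1 := by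
  rw [rz0, rz1, rz2, ← hu]
  have := Real.sin_sq_add_cos_sq θ
  linear_combination (u 0 ^ 2 + u 1 ^ 2) * this

lemma ext3 {u v : Fin 3 → ℝ} (h0 : u 0 = v 0) (h1 : u 1 = v 1) (h2 : u 2 = v 2) : u = v := by
  ext i
  fin_cases i
  · exact h0
  · exact h1
  · exact h2

lemma rz_rz (a b : ℝ) (u : Fin 3 → ℝ) : rz a (rz b u) = rz (a + b) u := by
  apply ext3
  · rw [rz0, rz0, rz1, rz0, Real.cos_add, Real.sin_add]; ring
  · rw [rz1, rz0, rz1, rz1, Real.cos_add, Real.sin_add]; ring
  · rw [rz2, rz2, rz2]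

lemma rz_zero (u : Fin 3 → ℝ) : rz 0 u = u := by
  apply ext3
  · rw [rz0]; simp
  · rw [rz1]; simp
  · rw [rz2]

/-- The height-twist operation. -/
noncomputable def tw (u v : S2) : S2 :=
  ⟨rz (v.vec 2 - u.vec 2) u.vec, rz_mem u.2⟩

lemma tw_coe (u v : S2) : (tw u v).vec = rz (v.vec 2 - u.vec 2) u.vec := rfl

lemma tw_ht (u v : S2) : (tw u v).vec 2 = u.vec 2 := by rw [tw_coe, rz2]

lemma tw_quandle : IsTopQuandle tw := by
  refine ⟨?_, ?_, ?_, ?_⟩
  · have c : ∀ i : Fin 3, Continuous fun p : S2 × S2 => p.1.vec i := fun i =>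
      (continuous_apply i).comp (cont_vec.comp continuous_fst)
    have d : ∀ i : Fin 3, Continuous fun p : S2 × S2 => p.2.vec i := fun i =>
      (continuous_apply i).comp (cont_vec.comp continuous_snd)
    have hθ := (d 2).sub (c 2)
    refine Continuous.subtype_mk ?_ _
    refine continuous_pi fun i => ?_
    fin_cases i
    · simp only [Fin.zero_eta, rz0]
      exact ((Real.continuous_cos.comp hθ).mul (c 0)).sub ((Real.continuous_sin.comp hθ).mul (c 1))
    · simp only [Fin.mk_one, rz1]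
      exact ((Real.continuous_sin.comp hθ).mul (c 0)).add ((Real.continuous_cos.comp hθ).mul (c 1))
    · simp only [Fin.reduceFinMk, rz2]
      exact c 2
  · intro x
    apply S2.eq
    rw [tw_coe, sub_self, rz_zero]
  · intro y
    constructor
    · intro a b hab
      have hab' : (tw a y).vec = (tw b y).vec := congrArg S2.vec hab
      have h2 : a.vec 2 = b.vec 2 := by
        rw [← tw_ht a y, ← tw_ht b y, hab']
      apply S2.eq
      rw [tw_coe, tw_coe, h2] at hab'
      have := congrArg (rz (-(y.vec 2 - b.vec 2))) hab'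
      rwa [rz_rz, rz_rz, neg_add_cancel, rz_zero, rz_zero] at this
    · intro b
      refine ⟨⟨rz (-(y.vec 2 - b.vec 2)) b.vec, rz_mem b.2⟩, ?_⟩
      apply S2.eq
      simp only [tw_coe]
      change rz (y.vec 2 - rz (-(y.vec 2 - b.vec 2)) b.vec 2) (rz (-(y.vec 2 - b.vec 2)) b.vec) = _
      rw [rz2, rz_rz, add_neg_cancel, rz_zero]
  · intro x y z
    apply S2.eq
    rw [tw_coe (tw x y), tw_ht, tw_coe x y, tw_coe (tw x z), tw_ht, tw_ht, tw_coe x z,
      rz_rz, rz_rz, add_comm]

lemma sq3 {a b c : ℝ} (h : a ^ 2 + b ^ 2 + c ^ 2 = 0) : a = 0 ∧ b = 0 ∧ c = 0 := by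
  have ha : a ^ 2 = 0 := by linarith [sq_nonneg a, sq_nonneg b, sq_nonneg c]
  have hb : b ^ 2 = 0 := by linarith [sq_nonneg a, sq_nonneg b, sq_nonneg c]
  have hc : c ^ 2 = 0 := by linarith [sq_nonneg a, sq_nonneg b, sq_nonneg c]
  exact ⟨pow_eq_zero_iff two_ne_zero |>.1 ha, pow_eq_zero_iff two_ne_zero |>.1 hb,
    pow_eq_zero_iff two_ne_zero |>.1 hc⟩

lemma fix_rot {ψ : ℝ} (h0 : 0 < ψ) (h1 : ψ < 2 * π) {v u : Fin 3 → ℝ}
    (hv : v 0 ^ 2 + v 1 ^ 2 + v 2 ^ 2 = 1) (hu : u 0 ^ 2 + u 1 ^ 2 + u 2 ^ 2 = 1)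
    (h : rot ψ v u = u) : u = v ∨ u = -v := by
  have hc : Real.cos ψ ≠ 1 := by
    intro hc
    rw [Real.cos_eq_one_iff_of_lt_of_lt (by linarith) h1] at hc
    exact h0.ne' hc
  have e0 := congrArg (fun w : Fin 3 → ℝ => w 0) h
  have e1 := congrArg (fun w : Fin 3 → ℝ => w 1) h
  have e2 := congrArg (fun w : Fin 3 → ℝ => w 2) h
  simp only [rot, cross] at e0 e1 e2
  simp at e0 e1 e2
  set t : ℝ := v 0 * u 0 + v 1 * u 1 + v 2 * u 2 with ht
  have key : (1 - Real.cos ψ) * (t ^ 2 - 1) = 0 := by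
    have : t ^ 2 * (1 - cos ψ) = 1 - cos ψ := by
      linear_combination (u 0) * e0 + (u 1) * e1 + (u 2) * e2 + (1 - cos ψ) * hu
    linear_combination this
  have ht2 : t ^ 2 = 1 := by
    rcases mul_eq_zero.1 key with h | h
    · exact absurd (by linarith) hc
    · linarith
  have ht' : t = 1 ∨ t = -1 := by
    have : (t - 1) * (t + 1) = 0 := by linear_combination ht2
    rcases mul_eq_zero.1 this with h | h
    · left; linarith
    · right; linarith
  rcases ht' with h | h
  · left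
    have hs : (u 0 - v 0) ^ 2 + (u 1 - v 1) ^ 2 + (u 2 - v 2) ^ 2 = 0 := by
      linear_combination hu + hv - 2 * h
    obtain ⟨a, b, c⟩ := sq3 hs
    exact ext3 (by linarith) (by linarith) (by linarith)
  · right
    have hs : (u 0 + v 0) ^ 2 + (u 1 + v 1) ^ 2 + (u 2 + v 2) ^ 2 = 0 := by
      linear_combination hu + hv + 2 * h
    obtain ⟨a, b, c⟩ := sq3 hs
    refine ext3 ?_ ?_ ?_ <;> rw [Pi.neg_apply] <;> linarith

/-- The operation `op` is isomorphic to the trivial quandle. -/
def IsoTrivial (op : S2 → S2 → S2) : Prop := ∃ e : S2 ≃ₜ S2, ∀ u v, e (op u v) = e u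

/-- The operation `op` is isomorphic to the spherical quandle of angle `ψ`. -/
def IsoSpherical (ψ : ℝ) (op : S2 → S2 → S2) : Prop :=
  ∃ e : S2 ≃ₜ S2, ∀ u v, (e (op u v)).vec = rot ψ (e v).vec (e u).vec

/-- There is a topological quandle structure on the two-sphere isomorphic neither to the trivial
quandle nor to any spherical quandle. -/
theorem result :
    ∃ op : S2 → S2 → S2, IsTopQuandle op ∧ ¬ IsoTrivial op ∧
      ∀ ψ : ℝ, 0 < ψ → ψ < 2 * π → ¬ IsoSpherical ψ op := by
  refine ⟨tw, tw_quandle, ?_, ?_⟩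
  · rintro ⟨e, he⟩
    let u : S2 := ⟨![3/5, 0, 4/5], by simp; norm_num⟩
    let v : S2 := ⟨![1, 0, 0], by simp⟩
    have h : tw u v = u := e.injective (he u v)
    have h1 := congrArg (fun w : S2 => w.vec 1) h
    simp only [tw_coe, rz1] at h1
    simp [u, v, S2.vec] at h1
    have : Real.sin (4/5) > 0 := Real.sin_pos_of_pos_of_lt_pi (by norm_num)
      (by linarith [Real.pi_gt_three])
    linarith
  · rintro ψ h0 h1 ⟨e, he⟩
    let a : S2 := ⟨![1, 0, 0], by simp⟩
    let b : S2 := ⟨![0, 1, 0], by simp⟩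
    let c : S2 := ⟨![-1, 0, 0], by simp⟩
    have fixed : ∀ w : S2, w.vec 2 = 0 → (e w).vec = (e a).vec ∨ (e w).vec = -(e a).vec := by
      intro w hw
      have hwa : tw w a = w := by
        apply S2.eq
        rw [tw_coe, hw]
        simp [a, rz_zero, S2.vec]
      have := he w a
      rw [hwa] at this
      exact fix_rot h0 h1 (e a).2 (e w).2 this.symm
    have hab : a ≠ b := by
      intro h
      have := congrArg (fun w : S2 => w.vec 0) h
      simp [a, b, S2.vec] at this
    have hac : a ≠ c := by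
      intro h
      have := congrArg (fun w : S2 => w.vec 0) h
      simp [a, c, S2.vec] at this
      linarith
    have hbc : b ≠ c := by
      intro h
      have := congrArg (fun w : S2 => w.vec 0) h
      simp [b, c, S2.vec] at this
    have fb := fixed b (by simp [b, S2.vec])
    have fc := fixed c (by simp [c, S2.vec])
    have fb' : (e b).vec = -(e a).vec := by
      rcases fb with h | h
      · exact absurd (e.injective (S2.eq h)).symm hab
      · exact h
    have fc' : (e c).vec = -(e a).vec := by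
      rcases fc with h | h
      · exact absurd (e.injective (S2.eq h)).symm hac
      · exact h
    exact hbc (e.injective (S2.eq (fb'.trans fc'.symm)))

end Pool.Agent.Results.MP_6238b5_al.HeightTwist
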